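import Pool.Agent.Helper92.TN.StN

/-!
Project T3K, level `p`, module FGT: finite generation of the values (copy of the module FG of project LV).
-/

set_option autoImplicit false

namespace Pool.Agent.Helper1.TN

open Pool.Agent.Helper14.CV Pool.Agent.Helper28.WK Pool.Agent.Helper28.LV Pool.Agent.Helper76.TG
open Pool.Agent.Helper92.TN

private lemma ne_zero_left {a b c d : ℤ} (h : a * d - b * c = 1) : a ≠ 0 ∨ c ≠ 0 := by
  by_contra hcon
  push Not at hcon
  rw [hcon.1, hcon.2] at h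
  simp at h

private lemma ne_zero_right {a b c d : ℤ} (h : a * d - b * c = 1) : b ≠ 0 ∨ d ≠ 0 := by
  by_contra hcon
  push Not at hcon
  rw [hcon.1, hcon.2] at h
  simp at h

/-- the values at a matrix are integral combinations of the values at a congruent matrix -/
private lemma diff_comb (p a n D : ℕ) {R : Type} [AddCommGroup R] (Φ : ℤ → ℤ → ℕ → R)
    (hΦ : WSNT p a n D Φ)
    {α β γ δ α' β' γ' δ' : ℤ} (h : α * δ - β * γ = 1) (h' : α' * δ' - β' * γ' = 1)
    (e3 : (p : ℤ) ^ n ∣ γ - γ') (e4 : (p : ℤ) ^ n ∣ δ - δ') (i : ℕ)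
    (hi : i ≤ 2 * a) :
    ∃ c : ℕ → ℤ, Φ α γ i - Φ β δ i =
      ∑ s ∈ Finset.range (2 * a + 1), c s • (Φ α' γ' s - Φ β' δ' s) := by
  set k1 := α * δ' - β * γ' with hk1
  set k2 := β * α' - α * β' with hk2
  set k3 := γ * δ' - δ * γ' with hk3
  set k4 := δ * α' - γ * β' with hk4
  have hdet : k1 * k4 - k2 * k3 = 1 := by
    have : k1 * k4 - k2 * k3 = (α * δ - β * γ) * (α' * δ' - β' * γ') := by
      rw [hk1, hk2, hk3, hk4]; ring
    rw [this, h, h', one_mul]
  have hq3 : (p : ℤ) ^ n ∣ k3 := by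
    have : k3 = (γ - γ') * δ' - (δ - δ') * γ' := by rw [hk3]; ring
    rw [this]
    exact dvd_sub (e3.mul_right _) (e4.mul_right _)
  set P : Polynomial ℤ := (Polynomial.C k1 * Polynomial.X + Polynomial.C k2) ^ i *
    (Polynomial.C k3 * Polynomial.X + Polynomial.C k4) ^ (2 * a - i) with hP
  have hE := hΦ.eqv k1 k2 k3 k4 hdet hq3 i hi
  rw [← hP] at hE
  have hdeg : P.natDegree < 2 * a + 1 := by
    have h1 : P.natDegree ≤ i * 1 + (2 * a - i) * 1 := by
      refine Polynomial.natDegree_mul_le.trans (Nat.add_le_add ?_ ?_)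
      · exact Polynomial.natDegree_pow_le.trans
          (Nat.mul_le_mul_left _ Polynomial.natDegree_linear_le)
      · exact Polynomial.natDegree_pow_le.trans
          (Nat.mul_le_mul_left _ Polynomial.natDegree_linear_le)
    omega
  rw [pr_eq_sum Φ P (2 * a + 1) hdeg] at hE
  have hd := hE.diff (ne_zero_left h') (ne_zero_right h')
  have c1 : k1 * α' + k2 * γ' = α := by
    have : k1 * α' + k2 * γ' = α * (α' * δ' - β' * γ') := by rw [hk1, hk2]; ring
    rw [this, h', mul_one]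
  have c2 : k3 * α' + k4 * γ' = γ := by
    have : k3 * α' + k4 * γ' = γ * (α' * δ' - β' * γ') := by rw [hk3, hk4]; ring
    rw [this, h', mul_one]
  have c3 : k1 * β' + k2 * δ' = β := by
    have : k1 * β' + k2 * δ' = β * (α' * δ' - β' * γ') := by rw [hk1, hk2]; ring
    rw [this, h', mul_one]
  have c4 : k3 * β' + k4 * δ' = δ := by
    have : k3 * β' + k4 * δ' = δ * (α' * δ' - β' * γ') := by rw [hk3, hk4]; ring
    rw [this, h', mul_one]
  refine ⟨fun s => P.coeff s, ?_⟩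
  have hl : act k1 k2 k3 k4 (cp Φ i) α' γ' - act k1 k2 k3 k4 (cp Φ i) β' δ' =
      Φ α γ i - Φ β δ i := by
    simp only [act, cp, c1, c2, c3, c4]
  rw [← hl, hd]
  simp only [Finset.sum_apply, Pi.smul_apply, cp]
  rw [← Finset.sum_sub_distrib]
  exact Finset.sum_congr rfl fun s _ => (smul_sub _ _ _).symm

private lemma exists_gen (p a n D : ℕ) (hp : p.Prime) {R : Type} [AddCommGroup R]
    (Φ : ℤ → ℤ → ℕ → R) (hΦ : WSNT p a n D Φ) :
    ∃ S : Finset R, ∀ α β γ δ : ℤ, α * δ - β * γ = 1 → ∀ i : ℕ, i ≤ 2 * a →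
      Φ α γ i - Φ β δ i ∈ AddSubgroup.closure (S : Set R) := by
  classical
  set q : ℕ := p ^ n with hq
  have : NeZero q := ⟨pow_ne_zero _ hp.ne_zero⟩
  have hdv : ∀ x y : ℤ, (x : ZMod q) = (y : ZMod q) → (p : ℤ) ^ n ∣ x - y := by
    intro x y hxy
    have h1 : ((x - y : ℤ) : ZMod q) = 0 := by
      rw [Int.cast_sub, hxy, sub_self]
    have h2 := (ZMod.intCast_zmod_eq_zero_iff_dvd (x - y) q).1 h1
    rw [hq] at h2
    exact_mod_cast h2
  have step : ∀ c : ZMod q × ZMod q × ZMod q × ZMod q, ∃ S : Finset R,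
      ∀ α β γ δ : ℤ, α * δ - β * γ = 1 →
        ((α : ZMod q), (β : ZMod q), (γ : ZMod q), (δ : ZMod q)) = c →
        ∀ i : ℕ, i ≤ 2 * a → Φ α γ i - Φ β δ i ∈ AddSubgroup.closure (S : Set R) := by
    intro c
    by_cases hc : ∃ α' β' γ' δ' : ℤ, α' * δ' - β' * γ' = 1 ∧
        ((α' : ZMod q), (β' : ZMod q), (γ' : ZMod q), (δ' : ZMod q)) = c
    · obtain ⟨α', β', γ', δ', hd', rfl⟩ := hc
      refine ⟨(Finset.range (2 * a + 1)).image fun s => Φ α' γ' s - Φ β' δ' s, ?_⟩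
      intro α β γ δ hd hcl i hi
      rw [Prod.mk.injEq, Prod.mk.injEq, Prod.mk.injEq] at hcl
      obtain ⟨-, -, x3, x4⟩ := hcl
      obtain ⟨c, hc⟩ := diff_comb p a n D Φ hΦ hd hd' (hdv _ _ x3) (hdv _ _ x4) i hi
      rw [hc]
      refine AddSubgroup.sum_mem _ fun s hs => AddSubgroup.zsmul_mem _ ?_ _
      refine AddSubgroup.subset_closure ?_
      rw [Finset.coe_image]
      exact ⟨s, hs, rfl⟩
    · exact ⟨∅, fun α β γ δ hd hcl => absurd ⟨α, β, γ, δ, hd, hcl⟩ hc⟩
  choose S hS using step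
  refine ⟨Finset.univ.biUnion S, ?_⟩
  intro α β γ δ hd i hi
  refine AddSubgroup.closure_mono ?_ (hS _ α β γ δ hd rfl i hi)
  intro x hx
  exact Finset.mem_coe.2 (Finset.mem_biUnion.2 ⟨_, Finset.mem_univ _, Finset.mem_coe.1 hx⟩)

theorem hFGT : StFGT := by
  intro hFar p a n D R _ Φ hp hΦ
  obtain ⟨S, hS⟩ := exists_gen p a n D hp Φ hΦ
  refine ⟨S, fun i hi => ?_⟩
  have hom := hΦ.hom i hi
  have h1 : EqC (fun x y : ℤ => (QuotientAddGroup.mk (Φ x y i) :
      R ⧸ AddSubgroup.closure (S : Set R))) 0 := by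
    refine hFar (R ⧸ AddSubgroup.closure (S : Set R)) inferInstance _ ?_ ?_
    · intro k x y hk hxy
      have := hom k x y hk hxy
      simp only [cp] at this
      simp only [this]
    · intro a' b' c' d' hd
      show (QuotientAddGroup.mk (Φ a' c' i) : R ⧸ AddSubgroup.closure (S : Set R)) =
        QuotientAddGroup.mk (Φ b' d' i)
      rw [eq_comm, QuotientAddGroup.eq]
      have := hS a' b' c' d' hd i hi
      rwa [neg_add_eq_sub]
  intro x y hxy
  have h2 := h1.diff hxy (Or.inl one_ne_zero : (1 : ℤ) ≠ 0 ∨ (0 : ℤ) ≠ 0)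
  simp only [Pi.zero_apply, sub_self] at h2
  rw [sub_eq_zero, eq_comm, QuotientAddGroup.eq, neg_add_eq_sub] at h2
  exact h2

end Pool.Agent.Helper1.TN
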